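import Pool.Agent.H487.GA.Stm

set_option autoImplicit false

/-!
# Project GA: `Im Ξ'/Ξ` is the linear statistic in `L¹` (helper790): `S_UAP`
-/

open Finset Complex Filter Topology Metric Set MeasureTheory

namespace Pool.Agent.H790.GA

open Pool.Agent.Helper242.KK (FT Ph)
open Pool.Agent.H477.Jen
open Pool.Agent.H477.E
open Pool.Agent.H487.GA

noncomputable section

theorem FT_entire : Differentiable ℂ (FT Ph) := ker_Ph.FT_diff

theorem FT_ne : FT Ph (-(2 * I)) ≠ 0 := by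
  have hs : (5 / 2 : ℂ) = 1 / 2 + I * (-(2 * I)) := by
    have h : I * (-(2 * I)) = 2 := by
      linear_combination (-2 : ℂ) * I_mul_I
    rw [h]
    norm_num
  have h5 : ((5 / 2 : ℂ)).re = 5 / 2 := by
    have : (5 / 2 : ℂ) = ((5 / 2 : ℝ) : ℂ) := by push_cast; ring
    rw [this, ofReal_re]
  have h1 : (5 / 2 : ℂ) ≠ 1 := by norm_num
  rw [FT_Ph_eq hs (by rw [h5]; norm_num) h1]
  exact mul_ne_zero (HR_ne (by rw [h5]; norm_num) h1)
    (riemannZeta_ne_zero_of_one_lt_re (by rw [h5]; norm_num))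

/-- finitely many zeros on a horizontal segment -/
theorem fin_zeros (y a b : ℝ) : {t : ℝ | t ∈ Icc a b ∧ FT Ph ((t : ℂ) - I * y) = 0}.Finite := by
  by_contra hinf
  obtain ⟨x, hx, hacc⟩ := Set.Infinite.exists_accPt_of_subset_isCompact
    (show {t : ℝ | t ∈ Icc a b ∧ FT Ph ((t : ℂ) - I * y) = 0}.Infinite from hinf)
    (isCompact_Icc (a := a) (b := b)) (fun t ht => ht.1)
  have hfr : ∃ᶠ t : ℝ in 𝓝[≠] x, FT Ph ((t : ℂ) - I * y) = 0 := by
    have h := accPt_iff_frequently_nhdsNE.1 hacc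
    exact h.mono fun t ht => ht.2
  have htend : Tendsto (fun t : ℝ => (t : ℂ) - I * y) (𝓝[≠] x) (𝓝[≠] ((x : ℂ) - I * y)) := by
    apply tendsto_nhdsWithin_of_tendsto_nhds_of_eventually_within
    · have hc : Continuous (fun t : ℝ => (t : ℂ) - I * y) := by fun_prop
      exact (hc.tendsto x).mono_left nhdsWithin_le_nhds
    · filter_upwards [self_mem_nhdsWithin] with t ht
      intro h
      apply ht
      have h2 : (t : ℂ) = x := by
        have h3 : (t : ℂ) - I * y = (x : ℂ) - I * y := h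
        linear_combination h3
      exact_mod_cast h2
  have hfz : ∃ᶠ z in 𝓝[≠] ((x : ℂ) - I * y), FT Ph z = 0 := htend.frequently hfr
  have han : AnalyticOnNhd ℂ (FT Ph) univ := fun z _ => FT_entire.analyticAt z
  have h0 := han.eqOn_zero_of_preconnected_of_frequently_eq_zero isPreconnected_univ
    (mem_univ _) hfz
  exact FT_ne (h0 (mem_univ _))

theorem ae_ne (y a b : ℝ) : ∀ᵐ t : ℝ ∂(volume.restrict (Icc a b)),
    t ∈ Icc a b ∧ FT Ph ((t : ℂ) - I * y) ≠ 0 := by
  have h1 : ∀ᵐ t ∂(volume : Measure ℝ), t ∉ {t : ℝ | t ∈ Icc a b ∧ FT Ph ((t : ℂ) - I * y) = 0} :=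
    measure_eq_zero_iff_ae_notMem.1 ((fin_zeros y a b).measure_zero volume)
  rw [ae_restrict_iff' measurableSet_Icc]
  filter_upwards [h1] with t ht hI
  exact ⟨hI, fun h => ht ⟨hI, h⟩⟩

/-- the linear statistic is linear -/
theorem XF_smul (c : ℝ) (F : ℝ → ℝ) (T t : ℝ) :
    XF (fun x => c * F x) T t = c * XF F T t := by
  unfold XF
  rw [integral_const_mul, mul_sub]
  have h1 : ∑ᶠ s ∈ ZS, (mz s : ℝ) * (c * F (s.im - t)) =
      c * ∑ᶠ s ∈ ZS, (mz s : ℝ) * F (s.im - t) := by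
    have h2 := smul_finsum c (fun s : ℂ => ∑ᶠ _ : s ∈ ZS, (mz s : ℝ) * F (s.im - t))
    rw [smul_eq_mul] at h2
    rw [h2]
    refine finsum_congr fun s => ?_
    rw [smul_finsum c (fun _ : s ∈ ZS => (mz s : ℝ) * F (s.im - t))]
    refine finsum_congr fun _ => ?_
    rw [smul_eq_mul]
    ring
  rw [h1]
  ring

/-- the sum moved to the line: the second term -/
def A2 (T y t : ℝ) : ℝ := ∑ᶠ ρ ∈ ZI (T / 2) (3 * T),
  (mz ρ : ℝ) * (y * (1 / ((t : ℂ) - I * y - zz ρ)).im - y ^ 2 / ((ρ.im - t) ^ 2 + y ^ 2))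

/-- the third term -/
def A3 (T y t : ℝ) : ℝ := (∑ᶠ ρ ∈ ZI (T / 2) (3 * T), (mz ρ : ℝ) *
  (y ^ 2 / ((ρ.im - t) ^ 2 + y ^ 2))) - y * lamT T - XF (Fy y) T t

theorem A2_meas (T y : ℝ) (hf : (ZI (T / 2) (3 * T)).Finite) : Measurable (A2 T y) := by
  unfold A2
  have h1 : (fun t : ℝ => ∑ᶠ ρ ∈ ZI (T / 2) (3 * T),
      (mz ρ : ℝ) * (y * (1 / ((t : ℂ) - I * y - zz ρ)).im - y ^ 2 / ((ρ.im - t) ^ 2 + y ^ 2))) =
      fun t : ℝ => ∑ ρ ∈ hf.toFinset, (mz ρ : ℝ) *
        (y * (1 / ((t : ℂ) - I * y - zz ρ)).im - y ^ 2 / ((ρ.im - t) ^ 2 + y ^ 2)) := by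
    funext t
    exact finsum_mem_eq_finite_toFinset_sum _ hf
  change Measurable (fun t : ℝ => ∑ᶠ ρ ∈ ZI (T / 2) (3 * T),
      (mz ρ : ℝ) * (y * (1 / ((t : ℂ) - I * y - zz ρ)).im - y ^ 2 / ((ρ.im - t) ^ 2 + y ^ 2)))
  rw [h1]
  refine Finset.measurable_sum _ fun ρ _ => ?_
  refine Measurable.const_mul ?_ _
  refine Measurable.sub ?_ ?_
  · refine Measurable.const_mul ?_ _
    apply Complex.measurable_im.comp
    apply Measurable.div measurable_const
    fun_prop
  · apply Measurable.div measurable_const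
    fun_prop

/-- the decomposition -/
theorem decomp (T y t : ℝ) (hf : (ZI (T / 2) (3 * T)).Finite) :
    y * UU T ((t : ℂ) - I * y) - XF (Fy y) T t =
      y * ((deriv (FT Ph) ((t : ℂ) - I * y) / FT Ph ((t : ℂ) - I * y)).im -
        ∑ᶠ ρ ∈ ZI (T / 2) (3 * T), (mz ρ : ℝ) * (1 / ((t : ℂ) - I * y - zz ρ)).im) +
      (A2 T y t + A3 T y t) := by
  have h2 : A2 T y t = y * (∑ᶠ ρ ∈ ZI (T / 2) (3 * T), (mz ρ : ℝ) *
        (1 / ((t : ℂ) - I * y - zz ρ)).im) -
      ∑ᶠ ρ ∈ ZI (T / 2) (3 * T), (mz ρ : ℝ) * (y ^ 2 / ((ρ.im - t) ^ 2 + y ^ 2)) := by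
    unfold A2
    rw [finsum_mem_eq_finite_toFinset_sum _ hf, finsum_mem_eq_finite_toFinset_sum _ hf,
      finsum_mem_eq_finite_toFinset_sum _ hf, Finset.mul_sum, ← Finset.sum_sub_distrib]
    refine Finset.sum_congr rfl fun ρ _ => ?_
    ring
  rw [h2, A3, UU]
  ring

/-- the main inequality -/
theorem core (h1 : S_HAD) (h2 : S_OFF) (h3 : S_POI) : ∃ C T0 : ℝ, 0 < C ∧ 10 ≤ T0 ∧
    ∀ T : ℝ, T0 ≤ T → ∀ y : ℝ, 0 < y → y ≤ 5 / 4 →
    ∫⁻ t in Icc (T + 3 * Real.log T) (2 * T - 3 * Real.log T),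
      ENNReal.ofReal |y * UU T ((t : ℂ) - I * y) - XF (Fy y) T t| ≤
      ENNReal.ofReal (C * T * (y + 1 / (y * Real.log T))) := by
  obtain ⟨C1, T1, hC1, hT1, H1⟩ := h1
  obtain ⟨C2, T2, hC2, hT2, H2⟩ := h2
  obtain ⟨C3, T3, hC3, hT3, H3⟩ := h3
  refine ⟨2 * C1 + C2 + C3, max T1 (max T2 T3), by positivity, hT1.trans (le_max_left _ _),
    fun T hT y hy hy2 => ?_⟩
  have hTa : T1 ≤ T := (le_max_left _ _).trans hT
  have hTb : T2 ≤ T := ((le_max_left _ _).trans (le_max_right _ _)).trans hT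
  have hTc : T3 ≤ T := ((le_max_right _ _).trans (le_max_right _ _)).trans hT
  have hT10 : 10 ≤ T := hT1.trans hTa
  have hL : 1 ≤ Real.log T := by
    rw [Real.le_log_iff_exp_le (by linarith)]
    linarith [Real.exp_one_lt_three]
  obtain ⟨hfin, H1'⟩ := H1 T hTa
  set J : Set ℝ := Icc (T + 3 * Real.log T) (2 * T - 3 * Real.log T) with hJ
  have hJsub : J ⊆ Icc T (2 * T) := Icc_subset_Icc (by linarith) (by linarith)
  have hp : ∀ᵐ t : ℝ ∂(volume.restrict J),
      ENNReal.ofReal |y * UU T ((t : ℂ) - I * y) - XF (Fy y) T t| ≤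
        ENNReal.ofReal (C1 * y ^ 2) + (ENNReal.ofReal |A2 T y t| + ENNReal.ofReal |A3 T y t|) := by
    filter_upwards [ae_ne y (T + 3 * Real.log T) (2 * T - 3 * Real.log T)] with t ht
    have ht1 := hJsub ht.1
    have h4 := H1' t (by linarith [ht1.1]) (by linarith [ht1.2]) y hy hy2 ht.2
    rw [decomp T y t hfin]
    rw [← ENNReal.ofReal_add (abs_nonneg _) (abs_nonneg _),
      ← ENNReal.ofReal_add (by positivity) (by positivity)]
    apply ENNReal.ofReal_le_ofReal
    refine (abs_add_le _ _).trans (add_le_add ?_ (abs_add_le _ _))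
    rw [abs_mul, abs_of_pos hy]
    calc y * _ ≤ y * (C1 * y) := mul_le_mul_of_nonneg_left h4 hy.le
      _ = C1 * y ^ 2 := by ring
  have hm : Measurable fun t => ENNReal.ofReal |A2 T y t| :=
    ((A2_meas T y hfin).abs).ennreal_ofReal
  have hvol : volume J ≤ ENNReal.ofReal T := by
    rw [hJ, Real.volume_Icc]
    apply ENNReal.ofReal_le_ofReal
    linarith
  calc ∫⁻ t : ℝ in J, ENNReal.ofReal |y * UU T ((t : ℂ) - I * y) - XF (Fy y) T t|
      ≤ ∫⁻ t : ℝ in J, (ENNReal.ofReal (C1 * y ^ 2) +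
          (ENNReal.ofReal |A2 T y t| + ENNReal.ofReal |A3 T y t|)) := lintegral_mono_ae hp
    _ = ENNReal.ofReal (C1 * y ^ 2) * volume J + ((∫⁻ t : ℝ in J, ENNReal.ofReal |A2 T y t|) +
          ∫⁻ t : ℝ in J, ENNReal.ofReal |A3 T y t|) := by
        rw [lintegral_add_left measurable_const, lintegral_add_left hm, setLIntegral_const]
    _ ≤ ENNReal.ofReal (C1 * y ^ 2) * ENNReal.ofReal T +
          (ENNReal.ofReal (C2 * T / (y * Real.log T)) + ENNReal.ofReal (C3 * y * T)) := by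
        refine add_le_add (mul_le_mul_right hvol _) (add_le_add ?_ ?_)
        · exact (lintegral_mono_set hJsub).trans (H2 T hTb y hy hy2)
        · exact H3 T hTc y hy hy2
    _ = ENNReal.ofReal (C1 * y ^ 2 * T + (C2 * T / (y * Real.log T) + C3 * y * T)) := by
        rw [← ENNReal.ofReal_mul (by positivity), ← ENNReal.ofReal_add (by positivity)
          (by positivity), ← ENNReal.ofReal_add (by positivity) (by positivity)]
    _ ≤ ENNReal.ofReal ((2 * C1 + C2 + C3) * T * (y + 1 / (y * Real.log T))) := by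
        apply ENNReal.ofReal_le_ofReal
        have hT0 : 0 < T := by linarith
        have e0 : 0 ≤ 1 / (y * Real.log T) := by positivity
        have e1 : C2 * T / (y * Real.log T) = C2 * T * (1 / (y * Real.log T)) := by ring
        have e2 : C1 * y ^ 2 * T ≤ 2 * C1 * y * T := by
          have : y ^ 2 ≤ 2 * y := by nlinarith
          nlinarith [mul_le_mul_of_nonneg_left this (mul_pos hC1 hT0).le]
        have e3 : (2 * C1 + C2 + C3) * T * (y + 1 / (y * Real.log T)) =
            (2 * C1 * y * T + C2 * T * (1 / (y * Real.log T)) + C3 * y * T) +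
            (C2 * T * y + (2 * C1 + C3) * T * (1 / (y * Real.log T))) := by ring
        have e4 : 0 ≤ C2 * T * y + (2 * C1 + C3) * T * (1 / (y * Real.log T)) := by positivity
        rw [e1, e3]
        linarith

theorem uap_proof : S_HAD → S_OFF → S_POI → S_L1Y → S_KAD → S_UAP := by
  intro h1 h2 h3 h4 h5
  obtain ⟨C1, T1, hC1, hT1, H1⟩ := core h1 h2 h3
  obtain ⟨C4, T4, hC4, hT4, H4⟩ := h4
  obtain ⟨c, V, hc, hV, H5⟩ := h5.1
  constructor
  · refine ⟨C1 * (9 / 4) + c⁻¹ * (C4 * Real.sqrt (V + 1)), 1, max T1 T4, by positivity, le_rfl,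
      hT1.trans (le_max_left _ _), fun T hT y hy hy2 hyL => ?_⟩
    have hTa : T1 ≤ T := (le_max_left _ _).trans hT
    have hTb : T4 ≤ T := (le_max_right _ _).trans hT
    have hT10 : 10 ≤ T := hT1.trans hTa
    have hL : 1 ≤ Real.log T := by
      rw [Real.le_log_iff_exp_le (by linarith)]
      linarith [Real.exp_one_lt_three]
    obtain ⟨hcont, hint⟩ := H4 T hTb V (fun x => c * Fy y x) hV.le
      (H5 y (Real.log T) hy (by linarith) hL hyL)
    set J : Set ℝ := Icc (T + 3 * Real.log T) (2 * T - 3 * Real.log T) with hJ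
    have hJsub : J ⊆ Icc (T + 2 * Real.log T) (2 * T - 2 * Real.log T) :=
      Icc_subset_Icc (by linarith) (by linarith)
    have hXc : ContinuousOn (fun t => XF (Fy y) T t) J := by
      have e1 : (fun t => XF (Fy y) T t) = fun t => c⁻¹ * XF (fun x => c * Fy y x) T t := by
        funext t
        rw [XF_smul, ← mul_assoc, inv_mul_cancel₀ hc.ne', one_mul]
      rw [e1]
      exact (continuousOn_const.mul hcont).mono hJsub
    have hXm : AEMeasurable (fun t => ENNReal.ofReal |XF (Fy y) T t|) (volume.restrict J) := by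
      have e1 : AEMeasurable (fun t => XF (Fy y) T t) (volume.restrict J) :=
        hXc.aemeasurable measurableSet_Icc
      exact (e1.abs).ennreal_ofReal
    have hX : ∫⁻ t : ℝ in J, ENNReal.ofReal |XF (Fy y) T t| ≤
        ENNReal.ofReal (c⁻¹ * (C4 * T * Real.sqrt (V + 1))) := by
      calc ∫⁻ t : ℝ in J, ENNReal.ofReal |XF (Fy y) T t|
          = ∫⁻ t : ℝ in J, ENNReal.ofReal c⁻¹ * ENNReal.ofReal |XF (fun x => c * Fy y x) T t| := by
            refine lintegral_congr fun t => ?_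
            rw [← ENNReal.ofReal_mul (by positivity), XF_smul, abs_mul, abs_of_pos hc,
              ← mul_assoc, inv_mul_cancel₀ hc.ne', one_mul]
        _ = ENNReal.ofReal c⁻¹ * ∫⁻ t : ℝ in J, ENNReal.ofReal |XF (fun x => c * Fy y x) T t| := by
            rw [lintegral_const_mul' _ _ ENNReal.ofReal_ne_top]
        _ ≤ ENNReal.ofReal c⁻¹ * ENNReal.ofReal (C4 * T * Real.sqrt (V + 1)) :=
            mul_le_mul_right ((lintegral_mono_set hJsub).trans hint) _
        _ = ENNReal.ofReal (c⁻¹ * (C4 * T * Real.sqrt (V + 1))) := by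
            rw [← ENNReal.ofReal_mul (by positivity)]
    calc ∫⁻ t : ℝ in J, ENNReal.ofReal |y * UU T ((t : ℂ) - I * y)|
        ≤ ∫⁻ t : ℝ in J, (ENNReal.ofReal |y * UU T ((t : ℂ) - I * y) - XF (Fy y) T t| +
            ENNReal.ofReal |XF (Fy y) T t|) := by
          refine lintegral_mono fun t => ?_
          rw [← ENNReal.ofReal_add (abs_nonneg _) (abs_nonneg _)]
          apply ENNReal.ofReal_le_ofReal
          have := abs_add_le (y * UU T ((t : ℂ) - I * y) - XF (Fy y) T t) (XF (Fy y) T t)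
          rwa [sub_add_cancel] at this
      _ = (∫⁻ t : ℝ in J, ENNReal.ofReal |y * UU T ((t : ℂ) - I * y) - XF (Fy y) T t|) +
            ∫⁻ t : ℝ in J, ENNReal.ofReal |XF (Fy y) T t| := lintegral_add_right' _ hXm
      _ ≤ ENNReal.ofReal (C1 * T * (y + 1 / (y * Real.log T))) +
            ENNReal.ofReal (c⁻¹ * (C4 * T * Real.sqrt (V + 1))) :=
          add_le_add (H1 T hTa y hy hy2) hX
      _ = ENNReal.ofReal (C1 * T * (y + 1 / (y * Real.log T)) +
            c⁻¹ * (C4 * T * Real.sqrt (V + 1))) := by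
          rw [← ENNReal.ofReal_add (by positivity) (by positivity)]
      _ ≤ ENNReal.ofReal ((C1 * (9 / 4) + c⁻¹ * (C4 * Real.sqrt (V + 1))) * T) := by
          apply ENNReal.ofReal_le_ofReal
          have e1 : 1 / (y * Real.log T) ≤ 1 := by
            rw [div_le_one (by linarith)]
            exact hyL
          have e2 : C1 * T * (y + 1 / (y * Real.log T)) ≤ C1 * T * (9 / 4) :=
            mul_le_mul_of_nonneg_left (by linarith) (by positivity)
          have e3 : (C1 * (9 / 4) + c⁻¹ * (C4 * Real.sqrt (V + 1))) * T =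
              C1 * T * (9 / 4) + c⁻¹ * (C4 * T * Real.sqrt (V + 1)) := by ring
          rw [e3]
          linarith
  · intro ε hε
    refine ⟨min 1 (ε / (2 * C1)), max 1 (2 * C1 / ε), T1, by positivity, le_max_left _ _, hT1,
      fun T hT y hy hyδ hyL => ?_⟩
    have hT10 : 10 ≤ T := hT1.trans hT
    refine (H1 T hT y hy ((hyδ.trans (min_le_left _ _)).trans (by norm_num))).trans ?_
    apply ENNReal.ofReal_le_ofReal
    have e1 : y ≤ ε / (2 * C1) := hyδ.trans (min_le_right _ _)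
    have e2 : 2 * C1 / ε ≤ y * Real.log T := (le_max_right _ _).trans hyL
    have e3 : 1 / (y * Real.log T) ≤ ε / (2 * C1) := by
      have h6 : 0 < 2 * C1 / ε := by positivity
      calc 1 / (y * Real.log T) ≤ 1 / (2 * C1 / ε) := one_div_le_one_div_of_le h6 e2
        _ = ε / (2 * C1) := by rw [one_div_div]
    calc C1 * T * (y + 1 / (y * Real.log T)) ≤ C1 * T * (ε / (2 * C1) + ε / (2 * C1)) :=
          mul_le_mul_of_nonneg_left (add_le_add e1 e3) (by positivity)
      _ = ε * T := by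
          field_simp
          ring

end

end Pool.Agent.H790.GA
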